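import Pool.Agent.Q199.SY.Stm

/-! Project SY, lemma RB: the arcs of a ring which lie in E are almost surely pairwise disjoint
events. -/

open MeasureTheory ProbabilityTheory Set
open scoped ENNReal

namespace Pool.Agent.Q31.SY

open Pool.Agent.Q199.SY

theorem t_rb : S_ring → S_rb := by
  intro hring X _ _ _ m pre suf o h ℓ hl E T hE hT h1 h2
  obtain ⟨Y, hY, hYs, hYp⟩ := hring X m pre suf o h ℓ hl
  have hG : ∀ᵐ ω ∂PP, ∀ k i, k < ℓ →
      pre (Y (k + 1) i ω) = Y k i ω ∧ suf (Y (k + 1) i ω) = Y k (i + 1) ω := by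
    rw [ae_all_iff]
    intro k
    rw [ae_all_iff]
    intro i
    by_cases hk : k < ℓ
    · filter_upwards [hYs k i hk] with ω hω _
      exact hω
    · exact Filter.Eventually.of_forall (fun ω hk' => absurd hk' hk)
  -- transport of almost sure properties of m ℓ
  have htr : ∀ (Q : Set X), m ℓ Q = 0 → ∀ r, ∀ᵐ ω ∂PP, Y ℓ r ω ∉ Q := by
    intro Q hQ r
    obtain ⟨hm, hlaw⟩ := hY ℓ r le_rfl
    have h3 : ∀ᵐ z ∂(PP.map (Y ℓ r)), z ∉ Q := by
      rw [hlaw]
      exact measure_eq_zero_iff_ae_notMem.1 hQ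
    exact ae_of_ae_map hm.aemeasurable h3
  have hdis : ∀ r s, r < s → s < ℓ → PP ((Y ℓ r ⁻¹' E) ∩ (Y ℓ s ⁻¹' E)) = 0 := by
    intro r s hrs hs
    rw [measure_eq_zero_iff_ae_notMem]
    obtain ⟨k, rfl⟩ : ∃ k, s = r + k := ⟨s - r, by omega⟩
    have hk1 : 1 ≤ k := by omega
    have hk2 : k < ℓ := by omega
    have e0 : ℓ - (ℓ - k) = k := by omega
    have a1 := htr _ (h1 k hk1 hk2) r
    have a2 := htr _ (h1 (ℓ - k) (by omega) (by omega)) (r + k)
    have a3 := htr _ (h2 k hk1 hk2) r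
    filter_upwards [hG, a1, a2, a3] with ω hω b1 b2 b3 hmem
    have hpre : ∀ j k i, k + j ≤ ℓ → pre^[j] (Y (k + j) i ω) = Y k i ω := by
      intro j
      induction j with
      | zero => intro k i _; rfl
      | succ j ih =>
        intro k i hkj
        rw [Function.iterate_succ_apply, ← add_assoc, (hω (k + j) i (by omega)).1]
        exact ih k i (by omega)
    have hsuf : ∀ j k i, k + j ≤ ℓ → suf^[j] (Y (k + j) i ω) = Y k (i + j) ω := by
      intro j
      induction j with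
      | zero => intro k i _; rfl
      | succ j ih =>
        intro k i hkj
        rw [Function.iterate_succ_apply, ← add_assoc, (hω (k + j) i (by omega)).2,
          ih k (i + 1) (by omega)]
        congr 1
        ring
    have c1 : pre^[ℓ - k] (Y ℓ r ω) = Y k r ω := by
      have := hpre (ℓ - k) k r (by omega)
      rwa [show k + (ℓ - k) = ℓ by omega] at this
    have c2 : suf^[k] (Y ℓ r ω) = Y (ℓ - k) (r + k) ω := by
      have := hsuf k (ℓ - k) r (by omega)
      rwa [show ℓ - k + k = ℓ by omega] at this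
    have c3 : pre^[k] (Y ℓ (r + k) ω) = Y (ℓ - k) (r + k) ω := by
      have := hpre k (ℓ - k) (r + k) (by omega)
      rwa [show ℓ - k + k = ℓ by omega] at this
    have c4 : suf^[ℓ - k] (Y ℓ (r + k) ω) = Y k r ω := by
      have := hsuf (ℓ - k) k (r + k) (by omega)
      rw [show k + (ℓ - k) = ℓ by omega, show r + k + (ℓ - k) = r + ℓ by omega, hYp k r] at this
      exact this
    simp only [not_and, not_not] at b1 b2 b3
    rw [c1, c2] at b1 b3
    rw [e0, c3, c4] at b2
    exact b3 (b1 hmem.1) (b2 hmem.2)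
  have hmeas : ∀ r, MeasurableSet (Y ℓ r ⁻¹' E) := fun r => (hY ℓ r le_rfl).1 hE
  have hsum : PP (⋃ r ∈ Finset.range ℓ, Y ℓ r ⁻¹' E)
      = ∑ r ∈ Finset.range ℓ, PP (Y ℓ r ⁻¹' E) := by
    refine measure_biUnion_finset₀ ?_ (fun r _ => (hmeas r).nullMeasurableSet)
    intro r hr s hs hrs
    have hr' : r < ℓ := by simpa using hr
    have hs' : s < ℓ := by simpa using hs
    rcases lt_or_gt_of_ne hrs with h3 | h3
    · exact hdis r s h3 hs'
    · show PP ((Y ℓ r ⁻¹' E) ∩ (Y ℓ s ⁻¹' E)) = 0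
      rw [inter_comm]
      exact hdis s r h3 hr'
  have hval : ∀ r ∈ Finset.range ℓ, PP (Y ℓ r ⁻¹' E) = m ℓ E := by
    intro r _
    obtain ⟨hm, hlaw⟩ := hY ℓ r le_rfl
    rw [← hlaw, Measure.map_apply hm hE]
  rw [Finset.sum_congr rfl hval, Finset.sum_const, Finset.card_range, nsmul_eq_mul] at hsum
  rw [← hsum]
  exact prob_le_one

end Pool.Agent.Q31.SY
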